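import Pool.Agent.LGD.Stmts

set_option autoImplicit false

namespace Pool.Agent.LGD.H3

open Finset

theorem exists_near (x : ℝ) (hx : 0 ≤ x) : ∃ a : ℕ, 0 < a ∧ |(a : ℝ) - x| ≤ 1 := by
  refine ⟨⌊x⌋₊ + 1, Nat.succ_pos _, ?_⟩
  have h1 : (⌊x⌋₊ : ℝ) ≤ x := Nat.floor_le hx
  have h2 : x < ⌊x⌋₊ + 1 := Nat.lt_floor_add_one _
  push_cast
  rw [abs_le]
  constructor <;> linarith

theorem unit_sq (u : ℤˣ) : u * u = 1 := Int.units_mul_self u

theorem telescope (T : ℕ → ℤˣ) (n : ℕ) :
    ∏ i ∈ range n, (T i * T (i + 1)) = T 0 * T n := by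
  induction n with
  | zero => simp
  | succ n ih =>
    rw [prod_range_succ, ih]
    calc T 0 * T n * (T n * T (n + 1)) = T 0 * (T n * T n) * T (n + 1) := by
          simp only [mul_assoc]
      _ = T 0 * T (n + 1) := by rw [unit_sq, mul_one]

theorem tel : TelStmt := by
  intro f J H p q g c Q Y0 σ hf hQ hY0 hpq hg hg0 hgJ hc0 hcpos hc hbd hcl hσ
  have hH : 0 < H := hg0 ▸ hg 0 (Nat.zero_le _)
  have hH0 : (0 : ℝ) < (H : ℝ) := by exact_mod_cast hH
  have hstep : ∀ i < J, σ i * σ (i + 1) = f (p i) * f (q i) * (f (g i) * f (g (i + 1))) := by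
    intro i hi
    have hp := (hpq i hi).1
    have hq := (hpq i hi).2
    have hgi := hg i hi.le
    have hgi' := hg (i + 1) hi
    have p0 : (0 : ℝ) < p i := by exact_mod_cast hp
    have q0 : (0 : ℝ) < q i := by exact_mod_cast hq
    have g0 : (0 : ℝ) < g i := by exact_mod_cast hgi
    have g0' : (0 : ℝ) < g (i + 1) := by exact_mod_cast hgi'
    have c0 := hcpos i hi.le
    have c0' := hcpos (i + 1) hi
    have hci := hc i hi
    have hb := hbd i hi
    set y : ℝ := c i * H / g i * Y0 with hy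
    set y' : ℝ := c (i + 1) * H / g (i + 1) * Y0 with hy'
    have hypos : 0 < y := by positivity
    have hypos' : 0 < y' := by positivity
    have hrel : y' * (q i * g (i + 1)) = y * (p i * g i) := by
      have e1 : y' * (q i * g (i + 1)) = (c (i + 1) * q i) * H * Y0 := by
        rw [hy']; field_simp
      have e2 : y * (p i * g i) = (c i * p i) * H * Y0 := by
        rw [hy]; field_simp
      rw [e1, e2, hci]
    obtain ⟨a, ha, hax⟩ := exists_near (y / (q i * g (i + 1))) (by positivity)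
    have hx' : y' / (p i * g i) = y / (q i * g (i + 1)) := by
      rw [div_eq_div_iff (by positivity) (by positivity), hrel]
    have k1 : f (a * (q i * g (i + 1))) = σ i := by
      refine hσ i hi.le _ (Nat.mul_pos ha (Nat.mul_pos hq hgi')) ?_
      rw [← hy]
      push_cast
      have : (a : ℝ) * (q i * g (i + 1)) - y =
          (q i * g (i + 1)) * (a - y / (q i * g (i + 1))) := by field_simp
      rw [this, abs_mul, abs_of_pos (by positivity : (0 : ℝ) < q i * g (i + 1))]
      calc (q i : ℝ) * g (i + 1) * |(a : ℝ) - y / (q i * g (i + 1))|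
          ≤ Q * 1 := mul_le_mul hb.2 hax (abs_nonneg _) (by linarith)
        _ ≤ 4 * Q := by linarith
    have k2 : f (a * (p i * g i)) = σ (i + 1) := by
      refine hσ (i + 1) hi _ (Nat.mul_pos ha (Nat.mul_pos hp hgi)) ?_
      rw [← hy']
      push_cast
      have : (a : ℝ) * (p i * g i) - y' =
          (p i * g i) * (a - y' / (p i * g i)) := by field_simp
      rw [this, abs_mul, abs_of_pos (by positivity : (0 : ℝ) < p i * g i), hx']
      calc (p i : ℝ) * g i * |(a : ℝ) - y / (q i * g (i + 1))|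
          ≤ Q * 1 := mul_le_mul hb.1 hax (abs_nonneg _) (by linarith)
        _ ≤ 4 * Q := by linarith
    rw [← k1, ← k2, hf _ _ ha (Nat.mul_pos hq hgi'), hf _ _ ha (Nat.mul_pos hp hgi), hf _ _ hq hgi',
      hf _ _ hp hgi]
    calc f a * (f (q i) * f (g (i + 1))) * (f a * (f (p i) * f (g i)))
        = (f a * f a) * (f (p i) * f (q i) * (f (g i) * f (g (i + 1)))) := by
          ac_rfl
      _ = _ := by rw [unit_sq, one_mul]
  have hprod : ∏ i ∈ range J, (f (p i) * f (q i)) =
      ∏ i ∈ range J, ((σ i * f (g i)) * (σ (i + 1) * f (g (i + 1)))) := by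
    refine prod_congr rfl ?_
    intro i hi
    have h := hstep i (mem_range.1 hi)
    calc f (p i) * f (q i)
        = f (p i) * f (q i) * ((f (g i) * f (g i)) * (f (g (i + 1)) * f (g (i + 1)))) := by
          rw [unit_sq, unit_sq, mul_one, mul_one]
      _ = (f (p i) * f (q i) * (f (g i) * f (g (i + 1)))) * (f (g i) * f (g (i + 1))) := by
          ac_rfl
      _ = (σ i * σ (i + 1)) * (f (g i) * f (g (i + 1))) := by rw [h]
      _ = _ := by ac_rfl
  rw [hprod, telescope (fun i => σ i * f (g i)) J]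
  have hσJ : σ J = σ 0 := by
    obtain ⟨n, hn, hnx⟩ := exists_near Y0 hY0.le
    have e0 : c 0 * H / g 0 * Y0 = Y0 := by
      rw [hc0, hg0]; field_simp
    have a1 : f n = σ 0 := by
      refine hσ 0 (Nat.zero_le _) n hn ?_
      rw [e0]
      linarith
    have a2 : f n = σ J := by
      refine hσ J le_rfl n hn ?_
      have : (n : ℝ) - c J * H / g J * Y0 = ((n : ℝ) - Y0) - (c J * H / g J * Y0 - Y0) := by ring
      rw [this]
      calc |((n : ℝ) - Y0) - (c J * H / g J * Y0 - Y0)|
          ≤ |(n : ℝ) - Y0| + |c J * H / g J * Y0 - Y0| := abs_sub _ _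
        _ ≤ 4 * Q := by linarith
    rw [← a1, ← a2]
  show σ 0 * f (g 0) * (σ J * f (g J)) = 1
  rw [hσJ, hg0, hgJ, unit_sq]

end Pool.Agent.LGD.H3
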